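import Pool.Agent.R134.TB4

/-!
# Genus `g` set partitions of `{1, …, n}` with three blocks

`Pool.Agent.R134.TB.blockPerm f` is the permutation `τ` of `Fin n` whose cycles are the fibres of
`f`, each traversed in increasing order; for a set partition `α` we take `f = α.part`, the map
sending an element to its block.  `Pool.Agent.R134.TB.numCycles π` is the number of orbits of `π`.

Proof. Colour the blocks with three colours. The number of cycles of `τ⁻¹ σ` is determined by the
number `M` of cyclic colour changes: it is `n - M + 1` for odd `M` and `n - M + 2` for even `M`,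
since every `i` at which the colour changes lies in the orbit of one of two consecutive changes, and
the parity is given by the signs of `τ` and `σ`. So genus `g` means `M ∈ {2 g + 3, 2 g + 4}`, and the
colourings with `M` changes are counted by the transfer matrix method.
-/

set_option autoImplicit false

namespace Pool.Agent.Results.MP_752880_co.ThreeBlocks

open Finset Equiv Pool.Agent.R134.TB

/-- The set partition `α` of `{1, …, n}` (here `Fin n`) has genus `g`: with `τ` the permutation
whose cycles are the blocks of `α`, each traversed in increasing order, and `σ = (1, 2, …, n)`,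
`c(τ) + c(τ⁻¹ σ) + c(σ) = n + 2 - 2 g`. -/
def HasGenus {n : ℕ} (α : Finpartition (univ : Finset (Fin n))) (g : ℕ) : Prop :=
  numCycles (blockPerm α.part) + numCycles ((blockPerm α.part)⁻¹ * finRotate n) +
    numCycles (finRotate n) + 2 * g = n + 2

/-- The number of set partitions of `{1, …, n}` into `k` blocks that have genus `g`. -/
noncomputable def S (n k g : ℕ) : ℕ :=
  Nat.card {α : Finpartition (univ : Finset (Fin n)) // α.parts.card = k ∧ HasGenus α g}

/-- **Theorem.** For all `n ≥ 1` and `g ≥ 0`, the number of genus `g` partitions of `{1, …, n}` into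
three blocks is `(4^(g+1) - 1) (n - g - 1) / (3 (g + 2)) * binom(n, 2 g + 3)`. -/
theorem result (n g : ℕ) (hn : 1 ≤ n) :
    (S n 3 g : ℚ) =
      (4 ^ (g + 1) - 1) * ((n : ℚ) - g - 1) / (3 * ((g : ℚ) + 2)) * (n.choose (2 * g + 3) : ℚ) := by
  classical
  obtain ⟨N, rfl⟩ : ∃ N, n = N + 1 := ⟨n - 1, by omega⟩
  have hiff : ∀ α : Finpartition (univ : Finset (Fin (N + 1))), (α.parts.card = 3 ∧ HasGenus α g) ↔
      ((α.parts.card = 3 ∧ chg α.part = 2 * g + 3) ∨ (α.parts.card = 3 ∧ chg α.part = 2 * g + 4)) := by
    intro α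
    rw [← and_or_left]
    apply and_congr_right
    intro h3
    have h4 : (univ.image α.part).card = 3 := by rw [← parts_eq_image]; exact h3
    unfold HasGenus
    have h5 := numCycles_rho α.part h4
    unfold rho at h5
    rw [numCycles_blockPerm, h4, h5, numCycles_rotate]
    have h6 := chg_lt α.part
    rcases Nat.even_or_odd (chg α.part) with he | ho
    · rw [if_neg (Nat.not_odd_iff_even.mpr he)]
      obtain ⟨m, hm⟩ := he
      omega
    · rw [if_pos ho]
      obtain ⟨m, hm⟩ := ho
      omega
  have hS : S (N + 1) 3 g =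
      (univ.filter fun α : Finpartition (univ : Finset (Fin (N + 1))) =>
        α.parts.card = 3 ∧ chg α.part = 2 * g + 3).card +
      (univ.filter fun α : Finpartition (univ : Finset (Fin (N + 1))) =>
        α.parts.card = 3 ∧ chg α.part = 2 * g + 4).card := by
    unfold S
    rw [Nat.card_eq_fintype_card, Fintype.card_subtype, ← Finset.card_union_of_disjoint]
    · congr 1
      ext α
      rw [mem_union, mem_filter, mem_filter, mem_filter]
      simp only [mem_univ, true_and]
      exact hiff α
    · rw [Finset.disjoint_filter]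
      rintro α _ ⟨_, h1⟩ ⟨_, h2⟩
      omega
  have hc : ∀ M, 1 ≤ M → ((univ.filter fun α : Finpartition (univ : Finset (Fin (N + 1))) =>
      α.parts.card = 3 ∧ chg α.part = M).card : ℚ) =
      (N + 1).choose M * (2 ^ M - 3 - (-1) ^ M) / 6 := by
    intro M hM
    rw [← surj_card N M hM, card_partitions]
    push_cast
    ring
  rw [hS]
  push_cast
  rw [hc _ (by omega), hc _ (by omega)]
  have hch : (((N + 1).choose (2 * g + 4) : ℕ) : ℚ) * (2 * g + 4) =
      ((N + 1).choose (2 * g + 3) : ℚ) * ((N : ℚ) + 1 - (2 * g + 3)) := by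
    rcases Nat.lt_or_ge (N + 1) (2 * g + 3) with h | h
    · rw [Nat.choose_eq_zero_of_lt h, Nat.choose_eq_zero_of_lt (by omega)]
      simp
    · have h1 := Nat.choose_succ_right_eq (N + 1) (2 * g + 3)
      have h2 := congrArg (fun k : ℕ => (k : ℚ)) h1
      simp only [Nat.cast_mul] at h2
      rw [Nat.cast_sub h] at h2
      push_cast at h2
      linarith
  have hg : ((g : ℚ) + 2) ≠ 0 := by positivity
  have hch' : (((N + 1).choose (2 * g + 4) : ℕ) : ℚ) =
      ((N + 1).choose (2 * g + 3) : ℚ) * ((N : ℚ) + 1 - (2 * g + 3)) / (2 * ((g : ℚ) + 2)) := by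
    rw [eq_div_iff (by positivity)]
    linarith
  rw [hch']
  have e1 : ((2 : ℚ)) ^ (2 * g + 3) = 2 * 4 ^ (g + 1) := by
    rw [show 2 * g + 3 = 2 * (g + 1) + 1 by ring, pow_succ, pow_mul]
    norm_num
    ring
  have e2 : ((2 : ℚ)) ^ (2 * g + 4) = 4 * 4 ^ (g + 1) := by
    rw [show 2 * g + 4 = 2 * (g + 1) + 2 by ring, pow_add, pow_mul]
    norm_num
    ring
  have e3 : ((-1 : ℚ)) ^ (2 * g + 3) = -1 := by
    rw [show 2 * g + 3 = 2 * (g + 1) + 1 by ring, pow_succ, pow_mul]
    norm_num
  have e4 : ((-1 : ℚ)) ^ (2 * g + 4) = 1 := by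
    rw [show 2 * g + 4 = 2 * (g + 2) by ring, pow_mul]
    norm_num
  rw [e1, e2, e3, e4]
  field_simp
  ring

end Pool.Agent.Results.MP_752880_co.ThreeBlocks
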